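import Mathlib
import Pool.Agent.Lib.helper5.MO

set_option autoImplicit false

namespace Pool.Agent.Results.MP_2ae949_nt.OmegaInv

open Finset Filter Topology

/-- For every MO function f, x |S_f(x)| ≥ 1/10 for arbitrarily large real x. -/
theorem result (f : ℕ → ℂ) (h1 : f 1 = 1)
    (hmul : ∀ m n, 1 ≤ m → 1 ≤ n → Nat.Coprime m n → f (m * n) = f m * f n)
    (_hsum : Tendsto (fun N : ℕ => ∑ n ∈ Icc 1 N, f n) atTop (𝓝 0))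
    (hp : ∀ p : ℕ, p.Prime → ∃ c : ℂ, c ≠ 0 ∧
      Tendsto (fun K : ℕ => ∑ k ∈ range K, f (p ^ k)) atTop (𝓝 c)) :
    ∀ X : ℝ, ∃ x : ℝ, X ≤ x ∧ 1 / 10 ≤ x * ‖∑ n ∈ Icc 1 ⌊x⌋₊, f n‖ := by
  intro X
  obtain ⟨N, hN1, hN2⟩ :=
    frequently_atTop.mp (Pool.Agent.Lib.Helper5.MO.main f h1 hmul hp) ⌈X⌉₊
  refine ⟨N, (Nat.le_ceil X).trans (by exact_mod_cast hN1), ?_⟩
  rwa [Nat.floor_natCast]

end Pool.Agent.Results.MP_2ae949_nt.OmegaInv
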